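import Pool.Agent.X193.CubeMix.Main

namespace Pool.Agent.Results.MP_fe6464_co.CubeWithTriangle

open X193.CMT X193.CubeMix

/-- There is a finite connected non-bipartite graph `G` (on 11 vertices) with circular mixing
threshold `4` and mixing threshold `5`. -/
theorem result : ∃ (V : Type) (_ : Fintype V) (G : SimpleGraph V),
    Fintype.card V = 11 ∧ G.Connected ∧ ¬ G.Colorable 2 ∧
    IsGLB (Good G) 4 ∧ IsLeast {n : ℕ | 0 < n ∧ ∀ k, n ≤ k → Mixing G k 1} 5 :=
  ⟨_, inferInstance, Gr, by simp, gr_connected, gr_not_bipartite, gr_glb, gr_threshold⟩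

end Pool.Agent.Results.MP_fe6464_co.CubeWithTriangle
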